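import Pool.Agent.H89.CC.Defs

/-!
# Data: doubly even self-dual binary codes of length 8 s without words of weight 4, s = 3, ..., 7
For each `s`, with `m = 4 s`: `rows_s`: the rows of `B` (bit `j` of the entry `i` is `B i j`), `word_s`: the first half `u`
of a word `w = (u, u B)` of weight `4 s` (bit `i` is `u i`), `cert_s`: the first halves of the words `v_k`,
`k < 4 s - 1`; the word `v_k` meets the support of `w` exactly in its `k`-th and `(k+1)`-th positions (positions in the
order: first half `0, ..., m - 1`, then second half `0, ..., m - 1`).
-/

set_option autoImplicit false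

namespace Pool.Agent.H89.CC

def rows_3 : List ℕ :=
    [2651, 3413, 3278, 4004, 2531, 1707, 973, 3386, 1660, 2002, 2237, 823]

def word_3 : ℕ := 3220

def cert_3 : List ℕ :=
    [60, 249, 1187, 3393, 2089, 257, 329, 42, 33, 290, 330]

def rows_4 : List ℕ :=
    [24915, 47650, 41896, 15236, 11647, 34708, 23077, 21106, 37481, 63210, 64882, 49749, 57545,
    44136, 45030, 42749]

def word_4 : ℕ := 29315

def cert_4 : List ℕ :=
    [2115, 2446, 2796, 7948, 15420, 27692, 17468, 312, 2124, 3420, 72, 2080, 3188, 1360, 3164]

def rows_5 : List ℕ :=
    [535279, 1014619, 701622, 51467, 750790, 940698, 926729, 807312, 554391, 862638, 675196, 701,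
    571166, 719626, 146867, 899155, 739207, 183391, 597058, 509349]

def word_5 : ℕ := 79586

def cert_5 : List ℕ :=
    [18483, 262521, 16844, 265101, 427800, 398357, 293137, 468993, 84252, 411921, 280605, 131080,
    278809, 133120, 2053, 264213, 18709, 444441, 180252]

def rows_6 : List ℕ :=
    [15725408, 5186558, 13926536, 1065501, 62318, 12319817, 8937485, 4973501, 2221115, 8462876,
    1006000, 11497356, 292990, 5718753, 606576, 10920508, 2416573, 998624, 145599, 7928095, 62112,
    1084791, 925140, 5245013]

def word_6 : ℕ := 2263008

def cert_6 : List ℕ :=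
    [4212838, 1315036, 856475, 1116949, 4220426, 41993, 4691973, 3817473, 3997706, 5845008,
    1318916, 4259869, 270356, 4544518, 1906719, 4468738, 6149, 1394704, 1310728, 5326878, 1400847,
    4268036, 5849109]

def rows_7 : List ℕ :=
    [63084446, 120065362, 231813064, 132037554, 135820288, 232961287, 256956873, 233477420,
    166706152, 209922822, 154203565, 210806098, 152852468, 265272009, 120435890, 110542377,
    117911371, 186818723, 151213729, 22166991, 131535282, 48282612, 33074412, 34452536, 250129791,
    138925179, 63420742, 102813002]

def word_7 : ℕ := 165619756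

def cert_7 : List ℕ :=
    [2134494, 35652714, 2137698, 2161856, 33666515, 35866386, 398801, 34378128, 1626130, 40929218,
    48273088, 58737552, 184551232, 136320768, 4434, 33608211, 2115010, 35702722, 2151697,
    33609410, 2147027, 33605072, 33572115, 2134352, 35685955, 2097794, 35669506]

/-- STUB `CC-D` (200 lines). The codes for `s = 3, 4, 5`. Either a soundness theorem for a Boolean check of the data
with natural numbers (`Nat.xor`, `Nat.land`, `Nat.testBit`; then `decide +kernel`), or directly `decide +kernel` for
the hypotheses of `S_CODE`, `S_MINW`. `B i j = if (rows.getD i 0).testBit j then 1 else 0`. See the library file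
`Pool/Graph/R_seed8/S07586.lean` (Golay code) for the conversions (`vec`, `pc`). -/
def S_D : Prop := S_CODE → S_MINW → S_SD → Gap (ZMod 2) 12 ∧ Gap (ZMod 2) 16 ∧ Gap (ZMod 2) 20

/-- STUB `CC-E` (100 lines more). The codes for `s = 6, 7`. -/
def S_E : Prop := S_CODE → S_MINW → S_SD → Gap (ZMod 2) 24 ∧ Gap (ZMod 2) 28

end Pool.Agent.H89.CC
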