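import Pool.Agent.H89.CC.Defs
import Pool.Agent.H89.CC.Data

/-!
# Assembly: gaps are inherited by 2-sums
-/

set_option autoImplicit false

namespace Pool.Agent.H89.CC

open Set

section

variable {F : Type} [Field F] {E : Type} [Fintype E]

theorem le_perp_perp (V : Submodule F (E → F)) {x : E → F} (hx : x ∈ V) : x ∈ perp (perp V) := by
  intro y hy
  rw [← hy x hx]
  exact Finset.sum_congr rfl fun i _ => mul_comm _ _

theorem Min.smul {V : Submodule F (E → F)} {x : E → F} (hx : Min V x) {a : F} (ha : a ≠ 0) :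
    Min V (a • x) := by
  obtain ⟨h1, h2, h3⟩ := hx
  refine ⟨V.smul_mem a h1, smul_ne_zero ha h2, fun y hy hy0 hs i hi => ?_⟩
  have := h3 y hy hy0 (fun j hj => hs j (by simp [hj])) i hi
  simp [this]

theorem meet_smul (x y : E → F) {a b : F} (ha : a ≠ 0) (hb : b ≠ 0) :
    meet (a • x) (b • y) = meet x y := by
  unfold meet
  congr 1
  ext i
  simp [ha, hb]

theorem meet_pos {x y : E → F} (h : 0 < meet x y) : ∃ p, x p ≠ 0 ∧ y p ≠ 0 := by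
  unfold meet at h
  obtain ⟨p, hp⟩ := (Set.ncard_pos (Set.toFinite _)).1 h
  exact ⟨p, hp⟩

end

/-- the sizes of the intersections of the 2-sum -/
theorem sizes (hPERP : S_PERP) (hCLS : S_CLS) (hMEET : S_MEET) {F : Type} [Field F] [CharP F 2]
    {A B : Type} [Fintype A] [DecidableEq A] [Fintype B] [DecidableEq B]
    (V : Submodule F (A → F)) (p : A) (W : Submodule F (B → F)) (q : B)
    (hV : ∃ x ∈ V, x p ≠ 0) (hV' : ∃ x ∈ perp V, x p ≠ 0)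
    (hW : ∃ x ∈ W, x q ≠ 0) (hW' : ∃ x ∈ perp W, x q ≠ 0)
    (c d : {i : A // i ≠ p} ⊕ {j : B // j ≠ q} → F)
    (hc : Min (perp (glue V p W q)) c) (hd : Min (glue V p W q) d) :
    meet c d = 0 ∨ (∃ c1 d1, Min (perp V) c1 ∧ Min V d1 ∧ meet c d = meet c1 d1) ∨
      (∃ c2 d2, Min (perp W) c2 ∧ Min W d2 ∧ meet c d = meet c2 d2) ∨
      (∃ c1 d1 c2 d2, Min (perp V) c1 ∧ Min V d1 ∧ Min (perp W) c2 ∧ Min W d2 ∧
        meet c d + 2 = meet c1 d1 + meet c2 d2) := by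
  rw [hPERP F A B V p W q hV hW] at hc
  have e1 := hCLS F A B (perp V) p (perp W) q
    (by obtain ⟨x, hx, hxp⟩ := hV; exact ⟨x, le_perp_perp V hx, hxp⟩)
    (by obtain ⟨x, hx, hxp⟩ := hW; exact ⟨x, le_perp_perp W hx, hxp⟩) c hc
  have e2 := hCLS F A B V p W q hV' hW' d hd
  have emp : ∀ (f g : B → F), (f q = 0 ∨ g q = 0) →
      {j | j = q ∧ f j ≠ 0 ∧ g j ≠ 0}.ncard = 0 := by
    intro f g h
    have : {j | j = q ∧ f j ≠ 0 ∧ g j ≠ 0} = (∅ : Set B) := by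
      ext j
      simp only [Set.mem_ofPred_eq, Set.mem_empty_iff_false, iff_false]
      rintro ⟨rfl, h1, h2⟩
      rcases h with h | h
      · exact h1 h
      · exact h2 h
    rw [this, Set.ncard_empty]
  have z1 := fun x : A → F => (hMEET F A B p q x x 0 0).2.2.2.1
  have z2 := fun x : A → F => (hMEET F A B p q x x 0 0).2.2.2.2
  have z3 := fun x : B → F => (hMEET F B A q p x x 0 0).2.2.2.1
  have z4 := fun x : B → F => (hMEET F B A q p x x 0 0).2.2.2.2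
  rcases e1 with ⟨c1, hc1, hc1p, rfl⟩ | ⟨c2, hc2, hc2q, rfl⟩ | ⟨c1, c2, hc1, hc2, hc1p, hc12, rfl⟩ <;>
  rcases e2 with ⟨d1, hd1, hd1p, rfl⟩ | ⟨d2, hd2, hd2q, rfl⟩ | ⟨d1, d2, hd1, hd2, hd1p, hd12, rfl⟩
  · -- c1, d1
    have h := (hMEET F A B p q c1 d1 0 0).1 hc1p
    rw [emp 0 0 (Or.inl rfl), z3] at h
    exact Or.inr (Or.inl ⟨c1, d1, hc1, hd1, by simpa using h⟩)
  · have h := (hMEET F A B p q c1 0 0 d2).1 hc1p
    rw [emp 0 d2 (Or.inl rfl), z1, z4] at h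
    exact Or.inl (by simpa using h)
  · have h := (hMEET F A B p q c1 d1 0 d2).1 hc1p
    rw [emp 0 d2 (Or.inl rfl), z4] at h
    exact Or.inr (Or.inl ⟨c1, d1, hc1, hd1, by simpa using h⟩)
  · have h := (hMEET F A B p q 0 d1 c2 0).1 rfl
    rw [emp c2 0 (Or.inr rfl), z2, z3] at h
    exact Or.inl (by simpa using h)
  · have h := (hMEET F A B p q 0 0 c2 d2).1 rfl
    rw [emp c2 d2 (Or.inl hc2q), z1] at h
    exact Or.inr (Or.inr (Or.inl ⟨c2, d2, hc2, hd2, by simpa using h⟩))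
  · have h := (hMEET F A B p q 0 d1 c2 d2).1 rfl
    rw [emp c2 d2 (Or.inl hc2q), z2] at h
    exact Or.inr (Or.inr (Or.inl ⟨c2, d2, hc2, hd2, by simpa using h⟩))
  · have h := (hMEET F A B p q c1 d1 c2 0).2.2.1 hd1p
    rw [emp c2 0 (Or.inr rfl), z3] at h
    exact Or.inr (Or.inl ⟨c1, d1, hc1, hd1, by simpa using h⟩)
  · have h := (hMEET F A B p q c1 0 c2 d2).2.2.1 rfl
    rw [emp c2 d2 (Or.inr hd2q), z1] at h
    exact Or.inr (Or.inr (Or.inl ⟨c2, d2, hc2, hd2, by simpa using h⟩))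
  · have h := (hMEET F A B p q c1 d1 c2 d2).2.1 hc1p hd1p (hc12 ▸ hc1p) (hd12 ▸ hd1p)
    exact Or.inr (Or.inr (Or.inr ⟨c1, d1, c2, d2, hc1, hd1, hc2, hd2, h⟩))

/-- the sum of the sizes minus two occurs -/
theorem exists_size (hPERP : S_PERP) (hCNV : S_CNV) (hMEET : S_MEET) {F : Type} [Field F] [CharP F 2]
    {A B : Type} [Fintype A] [DecidableEq A] [Fintype B] [DecidableEq B]
    (V : Submodule F (A → F)) (p : A) (W : Submodule F (B → F)) (q : B)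
    {c1 d1 : A → F} {c2 d2 : B → F} (hc1 : Min (perp V) c1) (hd1 : Min V d1) (hc2 : Min (perp W) c2)
    (hd2 : Min W d2) (hc1p : c1 p ≠ 0) (hd1p : d1 p ≠ 0) (hc2q : c2 q ≠ 0) (hd2q : d2 q ≠ 0) :
    ∃ c d, Min (perp (glue V p W q)) c ∧ Min (glue V p W q) d ∧
      meet c d + 2 = meet c1 d1 + meet c2 d2 := by
  have hac : c1 p * (c2 q)⁻¹ ≠ 0 := mul_ne_zero hc1p (inv_ne_zero hc2q)
  have had : d1 p * (d2 q)⁻¹ ≠ 0 := mul_ne_zero hd1p (inv_ne_zero hd2q)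
  refine ⟨joint p q c1 ((c1 p * (c2 q)⁻¹) • c2), joint p q d1 ((d1 p * (d2 q)⁻¹) • d2), ?_, ?_, ?_⟩
  · rw [hPERP F A B V p W q ⟨d1, hd1.1, hd1p⟩ ⟨d2, hd2.1, hd2q⟩]
    refine hCNV F A B (perp V) p (perp W) q ⟨d1, le_perp_perp V hd1.1, hd1p⟩ _ _ hc1 (hc2.smul hac)
      hc1p ?_
    simp [hc2q]
  · refine hCNV F A B V p W q ⟨c1, hc1.1, hc1p⟩ _ _ hd1 (hd2.smul had) hd1p ?_
    simp [hd2q]
  · rw [(hMEET F A B p q c1 d1 ((c1 p * (c2 q)⁻¹) • c2) ((d1 p * (d2 q)⁻¹) • d2)).2.1 hc1p hd1p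
      (by simp [hc1p, hc2q]) (by simp [hd1p, hd2q]), meet_smul c2 d2 hac had]

/-- Gaps add. -/
theorem gap_add (hPERP : S_PERP) (hCLS : S_CLS) (hCNV : S_CNV) (hMEET : S_MEET) {F : Type} [Field F]
    [CharP F 2] {t u : ℕ} (ht : Gap F t) (hu : Gap F u) (ht6 : 6 ≤ t) (hu6 : 6 ≤ u) :
    Gap F (t + u - 2) := by
  obtain ⟨A, _, _, V, ⟨c1, d1, hc1, hd1, hm1⟩, hV⟩ := ht
  obtain ⟨B, _, _, W, ⟨c2, d2, hc2, hd2, hm2⟩, hW⟩ := hu
  obtain ⟨p, hc1p, hd1p⟩ := meet_pos (x := c1) (y := d1) (by omega)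
  obtain ⟨q, hc2q, hd2q⟩ := meet_pos (x := c2) (y := d2) (by omega)
  refine ⟨_, inferInstance, inferInstance, glue V p W q, ?_, ?_⟩
  · obtain ⟨c, d, hc, hd, hm⟩ := exists_size hPERP hCNV hMEET V p W q hc1 hd1 hc2 hd2 hc1p hd1p hc2q
      hd2q
    exact ⟨c, d, hc, hd, by omega⟩
  · intro c d hc hd
    rcases sizes hPERP hCLS hMEET V p W q ⟨d1, hd1.1, hd1p⟩ ⟨c1, hc1.1, hc1p⟩ ⟨d2, hd2.1, hd2q⟩
      ⟨c2, hc2.1, hc2q⟩ c d hc hd with h | ⟨x, y, hx, hy, h⟩ | ⟨x, y, hx, hy, h⟩ |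
        ⟨x, y, x', y', hx, hy, hx', hy', h⟩
    · omega
    · have := hV x y hx hy
      omega
    · have := hW x y hx hy
      omega
    · have h1 := hV x y hx hy
      have h2 := hW x' y' hx' hy'
      omega

/-- The even sizes. -/
theorem sep_of_gap {F : Type} [Field F] {t : ℕ} (ht : Gap F t) (h6 : 6 ≤ t) : Sep F t := by
  obtain ⟨A, i1, i2, V, h, hV⟩ := ht
  refine ⟨A, i1, i2, V, h, fun c d hc hd => ?_⟩
  have := hV c d hc hd
  omega

/-- The odd sizes: the 2-sum with the four-point line. -/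
theorem sep_succ (hPERP : S_PERP) (hCLS : S_CLS) (hCNV : S_CNV) (hMEET : S_MEET) (hUF : S_UF)
    {F : Type} [Field F] [CharP F 2] (w : F) (hw0 : w ≠ 0) (hw1 : w ≠ 1) {t : ℕ} (ht : Gap F t)
    (h6 : 6 ≤ t) : Sep F (t + 1) := by
  obtain ⟨A, _, _, V, ⟨c1, d1, hc1, hd1, hm1⟩, hV⟩ := ht
  obtain ⟨W, ⟨c2, d2, hc2, hd2, hc2q, hd2q, hm2⟩, hW⟩ := hUF F w hw0 hw1
  obtain ⟨p, hc1p, hd1p⟩ := meet_pos (x := c1) (y := d1) (by omega)
  refine ⟨_, inferInstance, inferInstance, glue V p W 0, ?_, ?_⟩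
  · obtain ⟨c, d, hc, hd, hm⟩ := exists_size hPERP hCNV hMEET V p W 0 hc1 hd1 hc2 hd2 hc1p hd1p hc2q
      hd2q
    exact ⟨c, d, hc, hd, by omega⟩
  · intro c d hc hd
    rcases sizes hPERP hCLS hMEET V p W 0 ⟨d1, hd1.1, hd1p⟩ ⟨c1, hc1.1, hc1p⟩ ⟨d2, hd2.1, hd2q⟩
      ⟨c2, hc2.1, hc2q⟩ c d hc hd with h | ⟨x, y, hx, hy, h⟩ | ⟨x, y, hx, hy, h⟩ |
        ⟨x, y, x', y', hx, hy, hx', hy', h⟩
    · omega
    · have := hV x y hx hy
      omega
    · have := hW x y hx hy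
      omega
    · have h1 := hV x y hx hy
      have h2 := hW x' y' hx' hy'
      omega

/-- all even numbers from 20 on -/
theorem gap_even {P : ℕ → Prop} (h12 : P 12) (h16 : P 16) (h20 : P 20) (h24 : P 24) (h28 : P 28)
    (hadd : ∀ t u, P t → P u → 6 ≤ t → 6 ≤ u → P (t + u - 2)) (m : ℕ) : P (20 + 2 * m) := by
  induction m using Nat.strong_induction_on with
  | _ m ih =>
    match m, ih with
    | 0, _ => exact h20
    | 1, _ => exact hadd 12 12 h12 h12 (by norm_num) (by norm_num)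
    | 2, _ => exact h24
    | 3, _ => exact hadd 12 16 h12 h16 (by norm_num) (by norm_num)
    | 4, _ => exact h28
    | m + 5, ih =>
      have := hadd (20 + 2 * m) 12 (ih m (by omega)) h12 (by omega) (by norm_num)
      rw [show 20 + 2 * (m + 5) = 20 + 2 * m + 12 - 2 by omega]
      exact this

/-- the sizes of the main theorem -/
def Good (k : ℕ) : Prop := k = 12 ∨ k = 13 ∨ k = 16 ∨ k = 17 ∨ 20 ≤ k

theorem final (hPERP : S_PERP) (hCLS : S_CLS) (hCNV : S_CNV) (hMEET : S_MEET) (hUF : S_UF)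
    (hEXT : S_EXT) (hMAT : S_MAT) (hg : Gap (ZMod 2) 12 ∧ Gap (ZMod 2) 16 ∧ Gap (ZMod 2) 20)
    (hg' : Gap (ZMod 2) 24 ∧ Gap (ZMod 2) 28) (k : ℕ) (hk : Good k) :
    ∃ (α : Type) (M : Matroid α), M.Finite ∧
      (∃ C K : Set α, M.IsCircuit C ∧ M.IsCocircuit K ∧ (C ∩ K).ncard = k) ∧
      ¬ ∃ C K : Set α, M.IsCircuit C ∧ M.IsCocircuit K ∧ (C ∩ K).ncard = k - 2 := by
  classical
  let K := AlgebraicClosure (ZMod 2)
  have hch : CharP K 2 := charP_of_injective_algebraMap (algebraMap (ZMod 2) K).injective 2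
  obtain ⟨w, hw⟩ : ∃ w : K, w ∉ ({0, 1} : Finset K) := Infinite.exists_notMem_finset _
  simp only [Finset.mem_insert, Finset.mem_singleton, not_or] at hw
  have hadd : ∀ t u, Gap K t → Gap K u → 6 ≤ t → 6 ≤ u → Gap K (t + u - 2) :=
    fun t u h1 h2 h3 h4 => gap_add hPERP hCLS hCNV hMEET h1 h2 h3 h4
  have hev : ∀ m, Gap K (20 + 2 * m) := gap_even (hEXT K 12 hg.1) (hEXT K 16 hg.2.1)
    (hEXT K 20 hg.2.2) (hEXT K 24 hg'.1) (hEXT K 28 hg'.2) hadd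
  have hs : ∀ t, Gap K t → 6 ≤ t → Sep K t ∧ Sep K (t + 1) := fun t ht h6 =>
    ⟨sep_of_gap ht h6, sep_succ hPERP hCLS hCNV hMEET hUF w hw.1 hw.2 ht h6⟩
  apply hMAT K k
  rcases hk with rfl | rfl | rfl | rfl | hk
  · exact (hs 12 (hEXT K 12 hg.1) (by norm_num)).1
  · exact (hs 12 (hEXT K 12 hg.1) (by norm_num)).2
  · exact (hs 16 (hEXT K 16 hg.2.1) (by norm_num)).1
  · exact (hs 16 (hEXT K 16 hg.2.1) (by norm_num)).2
  · rcases Nat.even_or_odd' k with ⟨m, rfl | rfl⟩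
    · have := (hs _ (hev (m - 10)) (by omega)).1
      rw [show 20 + 2 * (m - 10) = 2 * m by omega] at this
      exact this
    · have := (hs _ (hev (m - 10)) (by omega)).2
      rw [show 20 + 2 * (m - 10) = 2 * m by omega] at this
      exact this

end Pool.Agent.H89.CC
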