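import Mathlib

/-!
# Circuit-cocircuit intersections (MP_1fc8d1_co): codes and their gluings
Definitions and statements of the parts.

The cocircuits of the matroid of a code `V ⊆ F^E` are the supports of the words of minimal support of `V`, the
circuits are those of `perp V`.
-/

set_option autoImplicit false

namespace Pool.Agent.H89.CC

/-- the orthogonal complement of a code -/
def perp {F E : Type} [Field F] [Fintype E] (V : Submodule F (E → F)) : Submodule F (E → F) where
  carrier := {y | ∀ x ∈ V, ∑ i, x i * y i = 0}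
  add_mem' := by
    intro a b ha hb x hx
    simp only [Pi.add_apply, mul_add, Finset.sum_add_distrib]
    rw [ha x hx, hb x hx, add_zero]
  zero_mem' := by
    intro x _
    simp
  smul_mem' := by
    intro c a ha x hx
    simp only [Pi.smul_apply, smul_eq_mul, mul_left_comm _ c, ← Finset.mul_sum]
    rw [ha x hx, mul_zero]

/-- a nonzero word of minimal support of the code -/
def Min {F E : Type} [Field F] (V : Submodule F (E → F)) (x : E → F) : Prop :=
  x ∈ V ∧ x ≠ 0 ∧ ∀ y ∈ V, y ≠ 0 → (∀ i, x i = 0 → y i = 0) → ∀ i, y i = 0 → x i = 0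

/-- the number of the common nonzero positions -/
noncomputable def meet {F E : Type} [Field F] (x y : E → F) : ℕ := {i : E | x i ≠ 0 ∧ y i ≠ 0}.ncard

/-- the number of the nonzero positions -/
noncomputable def wt {F E : Type} [Field F] (x : E → F) : ℕ := {i : E | x i ≠ 0}.ncard

/-- the position `p` is neither a loop nor a coloop -/
def Nondeg {F E : Type} [Field F] [Fintype E] (V : Submodule F (E → F)) (p : E) : Prop :=
  (∃ x ∈ V, x p ≠ 0) ∧ ∃ y ∈ perp V, y p ≠ 0

/-- the word `(x, y)` without the positions `p`, `q` -/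
def joint {F A B : Type} (p : A) (q : B) (x : A → F) (y : B → F) :
    {i : A // i ≠ p} ⊕ {j : B // j ≠ q} → F :=
  Sum.elim (fun i => x i.1) (fun j => y j.1)

/-- the 2-sum of two codes along the positions `p` and `q` -/
def glue {F A B : Type} [Field F] (V : Submodule F (A → F)) (p : A) (W : Submodule F (B → F))
    (q : B) : Submodule F ({i : A // i ≠ p} ⊕ {j : B // j ≠ q} → F) where
  carrier := {z | ∃ x ∈ V, ∃ y ∈ W, x p = y q ∧ z = joint p q x y}
  add_mem' := by
    rintro a b ⟨x, hx, y, hy, h, rfl⟩ ⟨x', hx', y', hy', h', rfl⟩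
    refine ⟨x + x', V.add_mem hx hx', y + y', W.add_mem hy hy', by simp [h, h'], ?_⟩
    funext i
    rcases i with i | i <;> simp [joint]
  zero_mem' := by
    refine ⟨0, V.zero_mem, 0, W.zero_mem, rfl, ?_⟩
    funext i
    rcases i with i | i <;> simp [joint]
  smul_mem' := by
    rintro c a ⟨x, hx, y, hy, h, rfl⟩
    refine ⟨c • x, V.smul_mem c hx, c • y, W.smul_mem c hy, by simp [h], ?_⟩
    funext i
    rcases i with i | i <;> simp [joint]

/-- a code with an intersection of size `t` and no larger ones, and none of size `t - 1`, `t - 2`, `t - 3` -/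
def Gap (F : Type) [Field F] (t : ℕ) : Prop :=
  ∃ (E : Type) (_ : Fintype E) (_ : DecidableEq E) (V : Submodule F (E → F)),
    (∃ c d, Min (perp V) c ∧ Min V d ∧ meet c d = t) ∧
    ∀ c d, Min (perp V) c → Min V d → meet c d = t ∨ meet c d + 4 ≤ t

/-- a code with an intersection of size `k` and none of size `k - 2` -/
def Sep (F : Type) [Field F] (k : ℕ) : Prop :=
  ∃ (E : Type) (_ : Fintype E) (_ : DecidableEq E) (V : Submodule F (E → F)),
    (∃ c d, Min (perp V) c ∧ Min V d ∧ meet c d = k) ∧
    ∀ c d, Min (perp V) c → Min V d → meet c d ≠ k - 2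

/-- STUB `CC-MAT` (100 lines). From codes to matroids. Use the file `Pool/Agent/H89/CC/VecMatroid.lean` (copy of a
library file): `vecMatroid F v` with `v : E → Module.Dual F V`, `v i x = x.1 i`. Relations of `v` are the words of
`perp V`; the functions `i ↦ f (v i)`, `f` in the double dual, are the words of `V` (`Module.evalEquiv`). Circuits and
cocircuits by `exists_of_isCircuit`, `isCircuit_of_minimal`, `exists_of_isCocircuit`, `isCocircuit_of_minimal`. -/
def S_MAT : Prop := ∀ (F : Type) [Field F] (k : ℕ), Sep F k →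
  ∃ (α : Type) (M : Matroid α), M.Finite ∧
    (∃ C K : Set α, M.IsCircuit C ∧ M.IsCocircuit K ∧ (C ∩ K).ncard = k) ∧
    ¬ ∃ C K : Set α, M.IsCircuit C ∧ M.IsCocircuit K ∧ (C ∩ K).ncard = k - 2

/-- STUB `CC-PERP` (120 lines). The dual of the 2-sum. `⊇`: the sum over all positions is
`(∑ x x' - a b) + (∑ y y' - a b) = - 2 a b = 0`. `⊆`: let `z ∈ perp (glue V p W q)`; the functional
`φ₁ x = ∑_(i ≠ p) x i * z (inl i)` on `V` vanishes for `x p = 0` (as `joint x 0 ∈ glue`), so `φ₁ x = β₁ * x p`;
similarly `φ₂ y = β₂ * y q` on `W`; with `x p = y q = 1` one gets `β₁ + β₂ = 0`, so `β₁ = β₂ = b`; extend `z` by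
`b` at `p` and at `q`. -/
def S_PERP : Prop := ∀ (F : Type) [Field F] [CharP F 2] (A B : Type) [Fintype A] [DecidableEq A]
  [Fintype B] [DecidableEq B] (V : Submodule F (A → F)) (p : A) (W : Submodule F (B → F)) (q : B),
  (∃ x ∈ V, x p ≠ 0) → (∃ y ∈ W, y q ≠ 0) →
    perp (glue V p W q) = glue (perp V) p (perp W) q

/-- STUB `CC-CLS` (120 lines). The words of minimal support of the 2-sum. Let `z = joint x y`, `a = x p = y q`.
If `a = 0` then `joint x 0` and `joint 0 y` are in `glue`; if `x ≠ 0` then `joint x 0 ≠ 0`, so by minimality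
`y = 0`, and `x` is minimal in `V`. If `a ≠ 0`: let `x' ∈ V`, `x' ≠ 0`, support in the one of `x`. If `x' p = 0` then
`joint x' 0` is nonzero, by minimality `y` vanishes outside `q`, and `y` times the word of `perp W` which is nonzero at
`q` gives a contradiction. So `x' p ≠ 0`, scale it to `a`; `joint x' y` is in `glue`, apply minimality (its
support is nonempty: otherwise `x'` is a multiple of the unit word at `p`, contradiction with `perp V`). -/
def S_CLS : Prop := ∀ (F : Type) [Field F] (A B : Type) [Fintype A] [DecidableEq A]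
  [Fintype B] [DecidableEq B] (V : Submodule F (A → F)) (p : A) (W : Submodule F (B → F)) (q : B),
  (∃ x ∈ perp V, x p ≠ 0) → (∃ y ∈ perp W, y q ≠ 0) → ∀ z, Min (glue V p W q) z →
    (∃ x, Min V x ∧ x p = 0 ∧ z = joint p q x 0) ∨ (∃ y, Min W y ∧ y q = 0 ∧ z = joint p q 0 y) ∨
    ∃ x y, Min V x ∧ Min W y ∧ x p ≠ 0 ∧ x p = y q ∧ z = joint p q x y

/-- STUB `CC-CNV` (80 lines). The converse: let `z' = joint x' y' ≠ 0` in `glue` with support in the one of
`joint x y`. Then `x' = 0` or `x'` has the support of `x` (which contains `p`), similarly for `y'`; as `x' p = y' q`, both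
are nonzero. (`joint x y ≠ 0` because `x` is not a multiple of the unit word at `p`: it is orthogonal to a word of
`perp V` which is nonzero at `p`.) -/
def S_CNV : Prop := ∀ (F : Type) [Field F] (A B : Type) [Fintype A] [DecidableEq A]
  [Fintype B] [DecidableEq B] (V : Submodule F (A → F)) (p : A) (W : Submodule F (B → F)) (q : B),
  (∃ x ∈ perp V, x p ≠ 0) → ∀ x y, Min V x → Min W y → x p ≠ 0 → x p = y q →
    Min (glue V p W q) (joint p q x y)

/-- STUB `CC-MEET` (60 lines). Counting: the positions of `joint` are those of `A` without `p` and those of `B`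
without `q`. -/
def S_MEET : Prop := ∀ (F : Type) [Field F] (A B : Type) [Fintype A] [DecidableEq A]
  [Fintype B] [DecidableEq B] (p : A) (q : B) (c d : A → F) (c' d' : B → F),
  (c p = 0 → meet (joint p q c c') (joint p q d d') + {j | j = q ∧ c' j ≠ 0 ∧ d' j ≠ 0}.ncard =
    meet c d + meet c' d') ∧
  (c p ≠ 0 → d p ≠ 0 → c' q ≠ 0 → d' q ≠ 0 →
    meet (joint p q c c') (joint p q d d') + 2 = meet c d + meet c' d') ∧
  (d p = 0 → meet (joint p q c c') (joint p q d d') + {j | j = q ∧ c' j ≠ 0 ∧ d' j ≠ 0}.ncard =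
    meet c d + meet c' d') ∧
  meet c (0 : A → F) = 0 ∧ meet (0 : A → F) c = 0

/-- STUB `CC-UF` (100 lines). A code with all three-element subsets of `Fin 4` as minimal supports, also for its dual
(`U_{2,4}`). `W = {(a, b, a + b, a + w b)}`, `w ∉ {0, 1}`; all nonzero words of `W` and of `perp W` have at
least three nonzero positions, and for every position there is a word which vanishes there; minimal words
have exactly three nonzero positions (two words which vanish at the same position are proportional). -/
def S_UF : Prop := ∀ (F : Type) [Field F] [CharP F 2] (w : F), w ≠ 0 → w ≠ 1 →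
  ∃ W : Submodule F (Fin 4 → F),
    (∃ c d, Min (perp W) c ∧ Min W d ∧ c 0 ≠ 0 ∧ d 0 ≠ 0 ∧ meet c d = 3) ∧
    ∀ c d, Min (perp W) c → Min W d → meet c d = 2 ∨ meet c d = 3

/-- STUB `CC-EXT` (150 lines). Extension of scalars from the field with two elements. `V' = span K` of the words of
`V`, or: `V' = {z | ∀ y ∈ perp V, ∑ i, z i * y i = 0}` (with `algebraMap`). `perp V'` is the extension of
`perp V`. For a word `z` of `V'` and a linear functional `l : K → ZMod 2`, the word `l ∘ z` is in `V`, and its
support is in the one of `z`; so words of minimal support of `V'` have the supports of words of minimal support of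
`V` and conversely. -/
def S_EXT : Prop := ∀ (K : Type) [Field K] [Algebra (ZMod 2) K] (t : ℕ), Gap (ZMod 2) t → Gap K t

/-- STUB `CC-SD` (150 lines). Self-dual codes with weights divisible by 4 and no word of weight 4. Every word `c` of
minimal support has `wt c ≤ 8 s - 4 s + 1` (the space of the words of `V` with support in the one of `c` has dimension
at least `finrank V - (8 s - wt c)`, `finrank V = 4 s`, and dimension one), so `wt c ≤ 4 s` as `4 ∣ wt c`. For
`c ≠ d`: `2 * meet c d = wt c + wt d - wt (c + d) ≤ 4 s + 4 s - 8`; `meet c c = wt c`. -/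
def S_SD : Prop := ∀ (E : Type) [Fintype E] [DecidableEq E] (s : ℕ)
  (V : Submodule (ZMod 2) (E → ZMod 2)) (w : E → ZMod 2), 1 ≤ s → Fintype.card E = 8 * s →
  perp V = V → (∀ x ∈ V, 4 ∣ wt x) → (∀ x ∈ V, wt x ≠ 4) → Min V w → wt w = 4 * s →
    Gap (ZMod 2) (4 * s)

/-- the code with generator matrix `[I | B]` -/
def code {m : ℕ} (B : Matrix (Fin m) (Fin m) (ZMod 2)) :
    Submodule (ZMod 2) (Fin m ⊕ Fin m → ZMod 2) where
  carrier := {z | ∀ j, z (Sum.inr j) = ∑ i, z (Sum.inl i) * B i j}
  add_mem' := by
    intro a b ha hb j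
    simp only [Pi.add_apply, add_mul, Finset.sum_add_distrib]
    rw [ha j, hb j]
  zero_mem' := by
    intro j
    simp
  smul_mem' := by
    intro c a ha j
    simp only [Pi.smul_apply, smul_eq_mul, mul_assoc, ← Finset.mul_sum]
    rw [ha j]

/-- STUB `CC-CODE` (150 lines). The code `[I | B]`, `B Bᵀ = 1`, is self-dual (`Bᵀ B = 1` too); if the weights of the
rows of `B` are `3` modulo `4` then all weights are divisible by 4 (`wt (x + y) = wt x + wt y - 2 meet x y`, and
`meet x y` is even; induction on the number of rows); a word of weight 4 has `j` nonzero positions in the first half,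
`1 ≤ j ≤ 3` (`j = 4` gives `u B = 0`): `j = 1`: a row of `B` of weight 3; `j = 2`: two rows whose sum has weight 2;
`j = 3`: a column of weight 3. -/
def S_CODE : Prop := ∀ (m : ℕ) (B : Matrix (Fin m) (Fin m) (ZMod 2)), B * B.transpose = 1 →
  (∀ i, wt (B i) % 4 = 3) → (∀ i, wt (B i) ≠ 3) → (∀ j, wt (fun i => B i j) ≠ 3) →
  (∀ i j, i ≠ j → wt (B i + B j) ≠ 2) →
    perp (code B) = code B ∧ (∀ x ∈ code B, 4 ∣ wt x) ∧ ∀ x ∈ code B, wt x ≠ 4

/-- STUB `CC-MINW` (50 lines). Certificate for minimal support: the positions in the support of `w` are enumerated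
by `e`, and for each `k` there is a word `v k ∈ perp V` which meets the support of `w` exactly in `e k`, `e (k + 1)`.
If `y ∈ V` has support in the one of `w`, then `y (e k) + y (e (k + 1)) = 0`, so `y` is constant on the support. -/
def S_MINW : Prop := ∀ (E : Type) [Fintype E] [DecidableEq E] (V : Submodule (ZMod 2) (E → ZMod 2))
  (w : E → ZMod 2) (n : ℕ) (e : ℕ → E) (v : ℕ → E → ZMod 2), w ∈ V → w ≠ 0 →
  (∀ i, w i ≠ 0 → ∃ k ≤ n, i = e k) → (∀ k < n, v k ∈ perp V) →
  (∀ k < n, e k ≠ e (k + 1) ∧ ∀ i, w i ≠ 0 → (v k i ≠ 0 ↔ i = e k ∨ i = e (k + 1))) → Min V w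

end Pool.Agent.H89.CC
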