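import Mathlib

set_option autoImplicit false

namespace Pool.Agent.H89.CC.VecMatroid

open Set

variable {ι F V : Type*} [Field F] [AddCommGroup V] [Module F V]

theorem aug [Finite ι] (v : ι → V) {I J : Set ι} (hI : LinearIndepOn F v I)
    (hJ : LinearIndepOn F v J) (h : I.ncard < J.ncard) :
    ∃ e ∈ J, e ∉ I ∧ LinearIndepOn F v (insert e I) := by
  by_contra hcon
  push Not at hcon
  have h1 : ∀ e ∈ J, v e ∈ Submodule.span F (v '' I) := by
    intro e he
    by_cases heI : e ∈ I
    · exact Submodule.subset_span ⟨e, heI, rfl⟩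
    · by_contra hne
      exact hcon e he heI (hI.insert hne)
  have h2 : Submodule.span F (v '' J) ≤ Submodule.span F (v '' I) := by
    rw [Submodule.span_le]
    rintro _ ⟨e, he, rfl⟩
    exact h1 e he
  have h3 := Submodule.rank_mono h2
  have h4 := toENat_rank_span_set hI
  have h5 := toENat_rank_span_set hJ
  have h6 : J.encard ≤ I.encard := by
    rw [← h4, ← h5]
    exact OrderHomClass.mono Cardinal.toENat h3
  have h7 : J.ncard ≤ I.ncard := by
    rw [← (Set.toFinite J).cast_ncard_eq, ← (Set.toFinite I).cast_ncard_eq] at h6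
    exact_mod_cast h6
  omega

/-- The vector matroid of a finite family of vectors. -/
def vecMatroid (F : Type*) {ι V : Type*} [Field F] [AddCommGroup V] [Module F V] [Finite ι]
    (v : ι → V) : Matroid ι :=
  (IndepMatroid.ofFinite (E := Set.univ) Set.finite_univ (fun I => LinearIndepOn F v I)
    (by simp) (fun _ _ hJ hIJ => hJ.mono hIJ) (fun _ _ hI hJ h => aug v hI hJ h)
    (fun _ _ => Set.subset_univ _)).matroid

@[simp] theorem vecMatroid_E [Finite ι] (v : ι → V) : (vecMatroid F v).E = Set.univ := rfl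

theorem vecMatroid_indep [Finite ι] (v : ι → V) {I : Set ι} :
    (vecMatroid F v).Indep I ↔ LinearIndepOn F v I := Iff.rfl

theorem vecMatroid_finite [Finite ι] (v : ι → V) : (vecMatroid F v).Finite :=
  ⟨Set.toFinite _⟩

/-- `c` is a linear relation among the vectors. -/
def IsRel [Fintype ι] (v : ι → V) (c : ι → F) : Prop := ∑ i, c i • v i = 0

theorem dep_iff [Fintype ι] (v : ι → V) {I : Set ι} :
    (vecMatroid F v).Dep I ↔ ∃ c : ι → F, c ≠ 0 ∧ IsRel v c ∧ Function.support c ⊆ I := by
  classical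
  rw [Matroid.dep_iff, vecMatroid_indep, vecMatroid_E]
  simp only [Set.subset_univ, and_true]
  rw [linearIndepOn_iff]
  push Not
  constructor
  · rintro ⟨l, hl, h0, hne⟩
    refine ⟨l, fun h => hne (by ext i; simp [h]), ?_, ?_⟩
    · rw [IsRel]
      rw [Finsupp.linearCombination_apply, Finsupp.sum_fintype _ _ (by simp)] at h0
      exact h0
    · intro i hi
      rw [Finsupp.mem_supported] at hl
      exact hl (by simpa using hi)
  · rintro ⟨c, hc, hrel, hs⟩
    refine ⟨Finsupp.equivFunOnFinite.symm c, ?_, ?_, ?_⟩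
    · rw [Finsupp.mem_supported]
      intro i hi
      apply hs
      simpa using hi
    · rw [Finsupp.linearCombination_apply, Finsupp.sum_fintype _ _ (by simp)]
      simpa [IsRel] using hrel
    · intro h
      apply hc
      funext i
      have := DFunLike.congr_fun h i
      simpa using this

theorem exists_of_isCircuit [Fintype ι] (v : ι → V) {C : Set ι} (hC : (vecMatroid F v).IsCircuit C) :
    ∃ c : ι → F, c ≠ 0 ∧ IsRel v c ∧ Function.support c = C := by
  obtain ⟨c, hc, hrel, hs⟩ := (dep_iff v).1 hC.dep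
  refine ⟨c, hc, hrel, ?_⟩
  refine hC.eq_of_dep_subset ((dep_iff v).2 ⟨c, hc, hrel, subset_rfl⟩) hs

theorem isCircuit_of_minimal [Fintype ι] (v : ι → V) {c : ι → F} (hc : c ≠ 0) (hrel : IsRel v c)
    (hmin : ∀ d : ι → F, d ≠ 0 → IsRel v d → Function.support d ⊆ Function.support c →
      Function.support c ⊆ Function.support d) :
    (vecMatroid F v).IsCircuit (Function.support c) := by
  rw [Matroid.isCircuit_iff]
  refine ⟨(dep_iff v).2 ⟨c, hc, hrel, subset_rfl⟩, fun D hD hDc => ?_⟩
  obtain ⟨d, hd, hdrel, hds⟩ := (dep_iff v).1 hD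
  exact subset_antisymm hDc ((hmin d hd hdrel (hds.trans hDc)).trans hds)

theorem isBase_iff [Finite ι] (v : ι → V) {B : Set ι} :
    (vecMatroid F v).IsBase B ↔ LinearIndepOn F v B ∧
      Submodule.span F (v '' B) = Submodule.span F (Set.range v) := by
  rw [Matroid.isBase_iff_maximal_indep, maximal_iff_forall_insert]
  · rw [vecMatroid_indep]
    refine and_congr_right fun hB => ?_
    constructor
    · intro h
      apply le_antisymm (Submodule.span_mono (Set.image_subset_range _ _))
      rw [Submodule.span_le]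
      rintro _ ⟨i, rfl⟩
      by_cases hi : i ∈ B
      · exact Submodule.subset_span ⟨i, hi, rfl⟩
      · by_contra hne
        exact h i hi (hB.insert hne)
    · intro h i hi hins
      rw [vecMatroid_indep] at hins
      have := hins.notMem_span_of_insert hi
      apply this
      rw [h]
      exact Submodule.subset_span ⟨i, rfl⟩
  · intro s t ht hst
    exact ht.subset hst

theorem spanning_iff [Finite ι] (v : ι → V) {X : Set ι} :
    (vecMatroid F v).Spanning X ↔ Submodule.span F (v '' X) = Submodule.span F (Set.range v) := by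
  rw [Matroid.spanning_iff_exists_isBase_subset]
  constructor
  · rintro ⟨B, hB, hBX⟩
    rw [isBase_iff] at hB
    apply le_antisymm (Submodule.span_mono (Set.image_subset_range _ _))
    rw [← hB.2]
    exact Submodule.span_mono (Set.image_mono hBX)
  · intro h
    obtain ⟨B, hB⟩ := (vecMatroid F v).exists_isBasis X
    refine ⟨B, ?_, hB.subset⟩
    rw [isBase_iff]
    refine ⟨hB.indep, ?_⟩
    rw [← h]
    apply le_antisymm (Submodule.span_mono (Set.image_mono hB.subset))
    rw [Submodule.span_le]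
    rintro _ ⟨i, hi, rfl⟩
    by_cases hiB : i ∈ B
    · exact Submodule.subset_span ⟨i, hiB, rfl⟩
    · by_contra hne
      have hind : (vecMatroid F v).Indep (insert i B) := LinearIndepOn.insert hB.indep hne
      exact hiB (hB.mem_of_insert_indep hi hind)

theorem not_spanning_compl_iff [Finite ι] (v : ι → V) {X : Set ι} :
    ¬ (vecMatroid F v).Spanning (Xᶜ) ↔
      ∃ f : Module.Dual F V, (∃ i, f (v i) ≠ 0) ∧ {i | f (v i) ≠ 0} ⊆ X := by
  rw [spanning_iff]
  constructor
  · intro h
    have hlt : Submodule.span F (v '' Xᶜ) < Submodule.span F (Set.range v) :=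
      lt_of_le_of_ne (Submodule.span_mono (Set.image_subset_range _ _)) h
    have hex : ∃ i, v i ∉ Submodule.span F (v '' Xᶜ) := by
      by_contra hcon
      push Not at hcon
      apply h
      apply le_antisymm hlt.le
      rw [Submodule.span_le]
      rintro _ ⟨i, rfl⟩
      exact hcon i
    obtain ⟨i, hi⟩ := hex
    obtain ⟨f, hf1, hf2⟩ := Submodule.exists_dual_map_eq_bot_of_notMem hi inferInstance
    refine ⟨f, ⟨i, hf1⟩, ?_⟩
    intro j hj
    by_contra hjX
    apply hj
    have : f (v j) ∈ Submodule.map f (Submodule.span F (v '' Xᶜ)) :=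
      ⟨v j, Submodule.subset_span ⟨j, hjX, rfl⟩, rfl⟩
    rw [hf2] at this
    simpa using this
  · rintro ⟨f, ⟨i, hi⟩, hs⟩ h
    apply hi
    have h1 : v i ∈ Submodule.span F (v '' Xᶜ) := by
      rw [h]
      exact Submodule.subset_span ⟨i, rfl⟩
    have h2 : Submodule.span F (v '' Xᶜ) ≤ LinearMap.ker f := by
      rw [Submodule.span_le]
      rintro _ ⟨j, hj, rfl⟩
      simp only [SetLike.mem_coe, LinearMap.mem_ker]
      by_contra hne
      exact hj (hs hne)
    exact h2 h1

theorem exists_of_isCocircuit [Finite ι] (v : ι → V) {K : Set ι}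
    (hK : (vecMatroid F v).IsCocircuit K) :
    ∃ f : Module.Dual F V, (∃ i, f (v i) ≠ 0) ∧ {i | f (v i) ≠ 0} = K := by
  rw [Matroid.isCocircuit_iff_minimal_compl_nonspanning] at hK
  have h1 := hK.prop
  rw [vecMatroid_E, ← Set.compl_eq_univ_sdiff, not_spanning_compl_iff] at h1
  obtain ⟨f, hf, hs⟩ := h1
  refine ⟨f, hf, ?_⟩
  apply hK.eq_of_subset ?_ hs
  rw [vecMatroid_E, ← Set.compl_eq_univ_sdiff, not_spanning_compl_iff]
  exact ⟨f, hf, subset_rfl⟩

theorem isCocircuit_of_minimal [Finite ι] (v : ι → V) (f : Module.Dual F V)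
    (hf : ∃ i, f (v i) ≠ 0)
    (hmin : ∀ g : Module.Dual F V, (∃ i, g (v i) ≠ 0) → (∀ i, g (v i) ≠ 0 → f (v i) ≠ 0) →
      (∀ i, f (v i) ≠ 0 → g (v i) ≠ 0)) :
    (vecMatroid F v).IsCocircuit {i | f (v i) ≠ 0} := by
  rw [Matroid.isCocircuit_iff_minimal_compl_nonspanning, minimal_iff]
  rw [vecMatroid_E, ← Set.compl_eq_univ_sdiff, not_spanning_compl_iff]
  refine ⟨⟨f, hf, subset_rfl⟩, fun Y hY hYs => ?_⟩
  rw [← Set.compl_eq_univ_sdiff, not_spanning_compl_iff] at hY
  obtain ⟨g, hg, hgs⟩ := hY
  apply subset_antisymm ?_ hYs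
  exact fun i hi => hgs (hmin g hg (fun j hj => hYs (hgs hj)) i hi)

end Pool.Agent.H89.CC.VecMatroid
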