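import Pool.Agent.H89.CC.Asm
import Pool.Agent.H89.CC.L.MAT
import Pool.Agent.H89.CC.L.PERP
import Pool.Agent.H89.CC.L.CLS
import Pool.Agent.H89.CC.L.CNV
import Pool.Agent.H89.CC.L.MEET
import Pool.Agent.H89.CC.L.UF
import Pool.Agent.H89.CC.L.EXT
import Pool.Agent.H89.CC.L.SD
import Pool.Agent.H89.CC.L.CODE
import Pool.Agent.H89.CC.L.MINW
import Pool.Agent.H89.CC.L.DD
import Pool.Agent.H89.CC.L.EE

set_option autoImplicit false

namespace Pool.Agent.H89.CC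

theorem main (k : ℕ) (hk : k = 12 ∨ k = 13 ∨ k = 16 ∨ k = 17 ∨ 20 ≤ k) :
    ∃ (α : Type) (M : Matroid α), M.Finite ∧
      (∃ C K : Set α, M.IsCircuit C ∧ M.IsCocircuit K ∧ (C ∩ K).ncard = k) ∧
      ¬ ∃ C K : Set α, M.IsCircuit C ∧ M.IsCocircuit K ∧ (C ∩ K).ncard = k - 2 :=
  final L.PERP.main L.CLS.main L.CNV.main L.MEET.main L.UF.main L.EXT.main L.MAT.main
    (L.DD.main L.CODE.main L.MINW.main L.SD.main) (L.EE.main L.CODE.main L.MINW.main L.SD.main) k hk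

end Pool.Agent.H89.CC
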